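import Pool.Agent.Q267.SE.Main

/-!
# Dense ordinary reduction of abelian covers of the projective line with free branch points

Let `k` be a field of characteristic `0`, `m ≥ 1` and `G` a finite abelian group whose exponent divides
`m`. An abelian cover `X → P¹` with the group `G` is given by its branch points `z_j ∈ k` and the
generators `γ_j ∈ G` of their inertia groups; the inertia at `∞` is generated by `- Σ γ_j`. With
`F_g = a_g ∏_{γ_j = g} (x - z_j)` the function field is generated over `k(x)` by the `y_χ`,

  `y_χ ^ m = ∏_g F_g ^ ⟨χ(g)⟩`, for the characters `χ : G → ℤ/m`, with `⟨χ(g)⟩ ∈ {0, …, m - 1}`.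

(Example: `G = ℤ/m`, the curve `y ^ m = ∏ (x - z_j) ^ (n_j)` with `γ_j = n_j`.)
The differentials `x ^ (a - 1) dx / y_χ` with `1 ≤ a ≤ r_χ` are a basis of an eigenspace of the space
of regular differentials, where `r_χ = ⌈S_χ / m⌉ - 1` and `S_χ = Σ_j ⟨χ(γ_j)⟩`. In characteristic
`p = 1 mod m` the Cartier operator maps this eigenspace to itself; its matrix has (up to `p`-th roots) the
entries `coefficient of x ^ (p b - a) in ∏_g F_g ^ (⟨χ(g)⟩ (p - 1) / m)`, for `1 ≤ a, b ≤ r_χ`. The curve is
ordinary if and only if the matrices of all the characters are invertible.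

**Theorem.** Let `X_i` be finitely many such abelian covers, with any groups `G_i`. Suppose that the
branch points of all `X_i` are elements of a field `k₀ ⊂ k`, for example algebraic numbers, or belong to a
family `t` of elements of `k` which are algebraically independent over `k₀` (the free branch points;
several covers may have the same ones), and that every character `χ` of `G_i` with `r_χ > 0` and
`r_{-χ} > 0` is ramified at a free branch point of `X_i`, that is, `χ(γ_j) ≠ 0` for a branch point
`z_j` which is free.
Let `A ⊂ k` be a finitely generated ring over which the covers are defined and `c ≠ 0` in `A`. Then for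
all large prime numbers `p = 1 mod m` there is a closed point of `Spec A` of characteristic `p` with
`c ≠ 0` at which the matrices of all the characters of all the covers are invertible.

So the closed points of `Spec A` at which the product of the `X_i` has ordinary reduction are dense.
The condition on the characters is satisfied by every cyclic cover which is totally ramified at one free
branch point: `y ^ m = (x - t) ∏ (x - l_j) ^ (n_j)` with `t` transcendental over the field generated
by the `l_j`. The case `m = 2` of such a curve is the theorem of the starting files. Characters which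
are ramified over at most three points of `P¹` satisfy `r_χ + r_{-χ} ≤ 1`, so nothing is supposed for
them; for instance Fermat curves may be factors of the product.

Proof. Let `k[t]` be a polynomial ring over a field of characteristic `p`, let the branch point `t` move
and let `e_j + e'_j = p - 1` be the exponents of `x - z_j` for the characters `χ` and `-χ`.
1. (Duality, `Dual.lean`.) If the matrix of `χ` is singular for all `t`, a vector in its left kernel
   gives an exact form in the eigenspace of `-χ`; so the matrix of `-χ` is singular, too. (This is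
   impossible if `r_{-χ} = 0`, even if no point moves.)
2. (`Gen.lean`.) If all elements `U` of the kernel of one matrix satisfied `U(t) = 0`, then
   differentiation with respect to `t` would show that `U` is divisible by a power of `x - t` which is
   larger than its degree; so both kernels have elements which are not zero at `x = t`.
3. (`Pair.lean`.) A sum of residues of the product of a primitive of `U f_χ` with the `t`-derivative of
   `U' f_{-χ}` shows `U(t) U'(t) = 0` for all elements `U`, `U'` of the two kernels.
So the matrices are invertible for general `t`, and the theorem of Chevalley and the Jacobson property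
of `A` give the closed points (`Main.lean`).
-/

set_option autoImplicit false

open Polynomial

namespace Pool.Agent.Results.MP_adc574_ag.AbelianCovers

/-- `r_χ`: the number of integers `a ≥ 1` with `m a < S`, where `S` is the sum of the `⟨χ(γ_j)⟩`. -/
def eigenDim {G J : Type*} [AddCommGroup G] [Fintype J] (m : ℕ) (γ : J → G) (χ : G →+ ZMod m) : ℕ :=
  ((∑ j, (χ (γ j)).val) - 1) / m

/-- The matrix of the character `χ` in characteristic `p`: the entry with indices `b, a` (from `0`)
is the coefficient of `x ^ (p (b + 1) - (a + 1))` in `f = ∏_g F_g ^ (⟨χ(g)⟩ (p - 1) / m)`, written as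
the coefficient of `x ^ (p (b + 1))` in `x ^ (a + 1) f`. -/
noncomputable def hasseWitt {R G : Type*} [CommRing R] [AddCommGroup G] [Fintype G] (m p r : ℕ)
    (F : G → R[X]) (χ : G →+ ZMod m) : Matrix (Fin r) (Fin r) R :=
  Matrix.of fun b a =>
    (X ^ ((a : ℕ) + 1) * ∏ g, F g ^ ((χ g).val * ((p - 1) / m))).coeff (p * ((b : ℕ) + 1))

theorem result {k σ ι : Type*} [Finite σ] [Finite ι] [Field k] [CharZero k] (m : ℕ) (hm : 0 < m)
    -- the field `k₀` and the free branch points
    (k₀ : IntermediateField ℚ k) (t : σ → k) (ht : AlgebraicIndependent k₀ t)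
    -- the groups, the branch points and the generators of the inertia groups
    {G J : ι → Type*} [∀ i, AddCommGroup (G i)] [∀ i, Fintype (G i)] [∀ i, DecidableEq (G i)]
    [∀ i, Fintype (J i)] (z : ∀ i, J i → k) (hz : ∀ i, Function.Injective (z i))
    (hz₀ : ∀ i j, z i j ∈ k₀ ∨ z i j ∈ Set.range t) (γ : ∀ i, J i → G i)
    -- the characters whose eigenspace and opposite eigenspace are not zero are ramified at a free
    -- branch point
    (hfree : ∀ i (χ : G i →+ ZMod m), 0 < eigenDim m (γ i) χ → 0 < eigenDim m (γ i) (-χ) →
      ∃ j, z i j ∈ Set.range t ∧ χ (γ i j) ≠ 0)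
    -- a finitely generated ring over which the covers are defined, a nonempty open set
    (A : Subalgebra ℤ k) (hA : A.FG) (F : ∀ i, G i → A[X]) (a : ∀ i, G i → A)
    (ha : ∀ i g, a i g ≠ 0)
    (hF : ∀ i g, (F i g).map (algebraMap A k) =
      C (a i g : k) * ∏ j with γ i j = g, (X - C (z i j)))
    (c : A) (hc : c ≠ 0) :
    ∃ N : ℕ, ∀ p : ℕ, N ≤ p → p.Prime → p ≡ 1 [MOD m] →
      ∃ M : Ideal A, M.IsMaximal ∧ (p : A) ∈ M ∧ c ∉ M ∧
        ∀ i (χ : G i →+ ZMod m),
          (hasseWitt m p (eigenDim m (γ i) χ) (fun g => (F i g).map (Ideal.Quotient.mk M))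
            χ).det ≠ 0 := by
  classical
  have hm0 : NeZero m := ⟨hm.ne'⟩
  have hfin : ∀ i, Finite (G i →+ ZMod m) := fun i =>
    Finite.of_injective (fun χ : G i →+ ZMod m => (χ : G i → ZMod m)) DFunLike.coe_injective
  let β := Σ i, {χ : G i →+ ZMod m // 0 < eigenDim m (γ i) χ}
  have : Finite β := inferInstance
  let _ : Fintype β := Fintype.ofFinite β
  -- the symbols of the branch points
  have hex : ∀ i j, ∃ y : k₀ ⊕ σ, Sum.elim (algebraMap k₀ k) t y = z i j ∧
      (z i j ∈ Set.range t → ∃ s, y = Sum.inr s) := by
    intro i j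
    by_cases h : z i j ∈ Set.range t
    · obtain ⟨s, hs⟩ := h
      exact ⟨Sum.inr s, hs, fun _ => ⟨s, rfl⟩⟩
    · exact ⟨Sum.inl ⟨z i j, (hz₀ i j).resolve_right h⟩, rfl, fun h' => absurd h' h⟩
  choose y hy1 hy2 using hex
  have hprod : ∀ (b : β) (q : ℕ), (∏ g, F b.1 g ^ ((b.2.1 g).val * q)).map (algebraMap A k) =
      C (((∏ g, a b.1 g ^ (b.2.1 g).val : A) : k) ^ q) *
        ∏ j, (X - C (z b.1 j)) ^ ((b.2.1 (γ b.1 j)).val * q) := by
    rintro ⟨i, χ, hχ⟩ q
    simp only
    rw [Polynomial.map_prod]
    have h1 : ∀ g, ((F i g) ^ ((χ g).val * q)).map (algebraMap A k) =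
        C ((a i g : k)) ^ ((χ g).val * q) *
          ∏ j with γ i j = g, (X - C (z i j)) ^ ((χ (γ i j)).val * q) := by
      intro g
      rw [Polynomial.map_pow, hF, mul_pow, ← Finset.prod_pow]
      congr 1
      refine Finset.prod_congr rfl fun j hj => ?_
      rw [(Finset.mem_filter.1 hj).2]
    rw [Finset.prod_congr rfl fun g _ => h1 g, Finset.prod_mul_distrib]
    congr 1
    · rw [C_pow]
      have h2 : ((∏ g, a i g ^ (χ g).val : A) : k) = ∏ g, (a i g : k) ^ (χ g).val := by
        push_cast
        rfl
      rw [h2, map_prod, ← Finset.prod_pow]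
      refine Finset.prod_congr rfl fun g _ => ?_
      rw [C_pow, pow_mul]
    · exact Finset.prod_fiberwise _ _ _
  obtain ⟨N, hN⟩ := Pool.Agent.Q267.SE.main (β := β) m hm k₀ t ht (J := fun b => J b.1)
    (fun b => y b.1) (fun b i j hij => hz b.1 (by rw [← hy1, ← hy1, hij]))
    (fun b j => (b.2.1 (γ b.1 j)).val) (fun b j => ZMod.val_lt _) (by
      rintro ⟨i, χ, hχ⟩
      by_cases hχ' : 0 < eigenDim m (γ i) (-χ)
      · left
        obtain ⟨j, hj1, hj2⟩ := hfree i χ hχ hχ'
        obtain ⟨s, hs⟩ := hy2 i j hj1
        exact ⟨j, s, (ZMod.val_ne_zero _).2 hj2, hs⟩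
      · right
        have h1 : eigenDim m (γ i) (-χ) = 0 := by omega
        refine Eq.trans ?_ h1
        show (_ - 1) / m = (_ - 1) / m
        congr 2
        refine Finset.sum_congr rfl fun j _ => ?_
        rw [AddMonoidHom.neg_apply, ZMod.neg_val]
        simp only [ZMod.val_eq_zero])
    A hA (fun q b => ∏ g, F b.1 g ^ ((b.2.1 g).val * q)) (fun b => ∏ g, a b.1 g ^ (b.2.1 g).val)
    (fun b => Finset.prod_ne_zero_iff.2 fun g _ => pow_ne_zero _ (ha b.1 g))
    (by
      intro q b
      rw [hprod]
      unfold Pool.Agent.Q267.SE.fp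
      simp only [hy1]) c hc
  refine ⟨N, fun p hp hpp hpm => ?_⟩
  obtain ⟨q, hq⟩ := (Nat.modEq_iff_dvd' hpp.one_le).1 hpm.symm
  have hpq : p = m * q + 1 := by
    have := hpp.one_le
    omega
  have hq' : (p - 1) / m = q := by
    rw [hq, Nat.mul_div_cancel_left q hm]
  obtain ⟨M, hM, hpM, hcM, hdet⟩ := hN p q hp hpp hpq
  refine ⟨M, hM, hpM, hcM, fun i χ => ?_⟩
  by_cases hχ : 0 < eigenDim m (γ i) χ
  · have h1 := hdet ⟨i, χ, hχ⟩
    simp only at h1
    rw [Polynomial.map_prod] at h1
    simp only [Polynomial.map_pow] at h1
    unfold hasseWitt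
    rw [hq']
    exact h1
  · have h0 : eigenDim m (γ i) χ = 0 := by omega
    have : Nontrivial (A ⧸ M) := Ideal.Quotient.nontrivial_iff.2 hM.ne_top
    have h1 : IsEmpty (Fin (eigenDim m (γ i) χ)) := by rw [h0]; infer_instance
    rw [Matrix.det_isEmpty]
    exact one_ne_zero

end Pool.Agent.Results.MP_adc574_ag.AbelianCovers
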