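import Pool.Agent.Q267.TR.Free
import Pool.Agent.Q267.FC.Main

/-!
# Dense ordinary reduction from one degenerate point

Let `k` be a field of characteristic `0`, `A ⊂ k` a finitely generated ring and `f_j ∈ A[x]`, `j ∈ J`,
polynomials in several variables. Let `w_i`, `i ∈ I`, be finitely many different exponents. We consider the
Hasse-Witt matrix of the coefficients of `x ^ (p w_i)` in `x ^ (w_i') ∏ f_j ^ (p - 1)` at the closed points
of characteristic `p` of `Spec A`.

* If `J` has one element, the variables have weights, `f` is weighted homogeneous of degree `m` and `w_i` are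
  all exponents of weighted degree `m` with positive coordinates, then this is the matrix of Frobenius on
  `H^d(Y, O_Y)`, `Y` the hypersurface `f = 0` of dimension `d` in the weighted projective space.
* If the `w_i` are the interior lattice points of the Newton polytope of `f`, it is the matrix of Frobenius on
  `H^d(Y, O_Y)`, where `Y` is a smooth compactification of the hypersurface `f = 0` of a torus which is
  nondegenerate for its Newton polytope (for example any nondegenerate curve in a torus).
* For several `f_j` homogeneous of degrees `m_j` the matrix describes Frobenius on `H^n(P, O(-∑ m_j))`,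
  which contains `H^d(Y, O_Y)`, `Y ⊂ P` the complete intersection of dimension `d ≥ 1`, as a subspace
  stable by Frobenius. If the matrix is invertible, Frobenius is bijective on `H^d(Y, O_Y)`.

A smooth projective curve is ordinary if and only if this matrix is invertible, and the same is true for smooth
surfaces with `H^1(Y, O_Y) = 0` (ordinary in the sense of Bloch and Kato).

**Theorem.** The matrix is invertible at a dense set of closed points of `Spec A`; more precisely, for every
`c₀ ≠ 0` in `A` and all large prime numbers `p = 1 mod N` there is a closed point of characteristic `p` with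
`c₀ ≠ 0` at which it is invertible, in each of the following cases.

1. *One degenerate point.* There are a finitely generated ring `A' ⊂ A` which contains the coefficients of the
   `f_j` and a homomorphism `θ : A' → K((T))`, `K` a field of characteristic `0`, such that every `w_i` is in the
   interior of a cell of the (mixed) subdivision defined by the orders of the coefficients of `θ f_j`, and this
   cell is a simplex; `N` is a common denominator of the barycentric coordinates. (`Cell` says: there is an affine
   function `l_j(v) = l₀ j + l v`, with the same linear part `l` for all `j`, which is at most the order of the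
   coefficient of `x ^ v` in `θ f_j`; the pairs `(j, v)` with equality are affinely independent, and `N w_i` is a
   combination of their `v` with positive integral coefficients, of sum `N` for each `j`.)
   For example one parameter `t` is enough: all curves and surfaces `∑ c_v(t) x ^ v = 0`, where
   `c_v ∈ k₀(t)` have orders `h(v)` at `t = 0` which define a triangulation; if `h` is strictly convex, or, more
   generally, every `w_i` is a vertex, then `N = 1` and all large primes occur.
2. *Free coefficients.* The coefficients of the `x ^ v` in `f_j`, `v ∈ U_j`, are algebraically independent over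
   a field `k₀` which contains all the others, and there are heights, zero outside `U_j`, which define such a
   subdivision.
3. *All the `w_i` are free.* The coefficients of the `x ^ (w_i)` are algebraically independent over a field `k₀`
   which contains the others. Here `N = 1`.
4. *One free coefficient.* `f = ∑ b_x z_x ^ (d_x) + t z ^ u + G` with arbitrary `b_x ≠ 0` and `G`, such that the
   monomials of `G` are divisible by the variables in `z ^ u`, and `t` is transcendental over the field of the other
   coefficients. For example all curves `y ^ a = f(x)`, `f(0) ≠ 0`, with one free coefficient, of any genus, and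
   the hypersurfaces `∑ b_x z_x ^ m + t z_0 ⋯ z_n + G`, `G` any sum of monomials divisible by `z_0 ⋯ z_n`.

Proof. The determinant of the Hasse-Witt matrix of `θ f` is a polynomial in `τ = T` and the lowest
coefficients, which become power series, times a power of `τ`; its lowest term in `τ` is computed by the cells: for
`p = 1 mod N` only the diagonal of the matrix contributes (an inequality for the lower hull of the orders and
the affine independence), and each entry of it is a product of multinomial coefficients, which are prime
to `p`, and of powers of the lowest coefficients (`TR/Core.lean`). So the determinant is a unit times a power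
of `τ` at a point of a finitely generated subring of `K[[T]]` over `T = p = 0`. The theorem of Chevalley
and the finiteness of the minimal primes give closed points of `Spec A` (`TR/Abs.lean`, `TR/Main.lean`).
-/

set_option autoImplicit false

open Finset MvPolynomial

namespace Pool.Agent.Results.MP_adc574_ag.DegenerateFibre

/-- The Hasse-Witt matrix in characteristic `p` of `f_j = 0`, `j ∈ J`: the entry with the indices `i`, `i'`
is the coefficient of `x ^ (p w_i)` in `x ^ (w_i') ∏ f_j ^ (p - 1)`. -/
noncomputable def hasseWitt {R V I J : Type*} [CommRing R] [Fintype J] (p : ℕ)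
    (w : I → V →₀ ℕ) (f : J → MvPolynomial V R) : Matrix I I R :=
  Matrix.of fun i i' => coeff (p • w i) (monomial (w i') 1 * ∏ j, f j ^ (p - 1))

/-- For every `c₀ ≠ 0` in `A` and every large prime number `p = 1 mod N` there is a closed point of `Spec A` of
characteristic `p` outside `c₀ = 0` at which the Hasse-Witt matrix is invertible. -/
def DenselyInvertible {k V I J : Type*} [Field k] [Fintype I] [DecidableEq I] [Fintype J]
    (A : Subalgebra ℤ k) (w : I → V →₀ ℕ) (f : J → MvPolynomial V A) (N : ℕ) : Prop :=
  ∀ c₀ : A, c₀ ≠ 0 → ∃ n₀ : ℕ, ∀ p : ℕ, n₀ ≤ p → p.Prime → p ≡ 1 [MOD N] →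
    ∃ M : Ideal A, M.IsMaximal ∧ (p : A) ∈ M ∧ c₀ ∉ M ∧
      (hasseWitt p w fun j => map (Ideal.Quotient.mk M) (f j)).det ≠ 0

/-- The exponent `w` is in the interior of a cell of the mixed subdivision of the finite sets `S j` defined by
the heights `h j`, the cell is a simplex and `n j v / N` are the barycentric coordinates of `w`. -/
def Cell {V J : Type*} [Fintype J] (S : J → Finset (V →₀ ℕ)) (h : J → (V →₀ ℕ) → ℤ) (N : ℕ)
    (w : V →₀ ℕ) : Prop :=
  ∃ (l₀ : J → ℚ) (l : (V →₀ ℕ) →+ ℚ) (n : J → (V →₀ ℕ) → ℕ),
    -- the vertices `(j, v)` of the cell are the points where the affine function is equal to `h`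
    (∀ j, ∀ v ∈ S j, l₀ j + l v ≤ h j v ∧ (n j v ≠ 0 ↔ l₀ j + l v = h j v)) ∧
    -- the barycentric coordinates
    (∀ j, ∑ v ∈ S j, n j v = N) ∧ ∑ j, ∑ v ∈ S j, n j v • v = N • w ∧
    -- the vertices are affinely independent
    ∀ c : J → (V →₀ ℕ) → ℤ, (∀ j, ∀ v ∈ S j, n j v = 0 → c j v = 0) →
      (∀ j, ∑ v ∈ S j, c j v = 0) → (∀ x, ∑ j, ∑ v ∈ S j, c j v * (v x : ℤ) = 0) →
      ∀ j, ∀ v ∈ S j, c j v = 0

/-- The exponents `w ≥ 1` of weighted degree `m`. -/
abbrev Exps {V : Type*} [Fintype V] (W : V → ℕ) (m : ℕ) :=
  {u : V → Fin (m + 1) // (∀ v, 0 < (u v : ℕ)) ∧ ∑ v, W v * (u v : ℕ) = m}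

/-- The exponents as finitely supported functions. -/
noncomputable def expo {V : Type*} [Fintype V] {W : V → ℕ} {m : ℕ} (w : Exps W m) : V →₀ ℕ :=
  Finsupp.equivFunOnFinite.symm fun i => (w.1 i : ℕ)

theorem result {k V I J : Type*} [Field k] [CharZero k] [Fintype V] [DecidableEq V] [Fintype I]
    [DecidableEq I] [Fintype J]
    -- a finitely generated ring, different exponents
    (A : Subalgebra ℤ k) (hA : A.FG) (w : I → V →₀ ℕ) (hw : Function.Injective w) :
    -- 1. One degenerate point
    (∀ (A' : Subalgebra ℤ k) (_ : A'.FG) (hle : A' ≤ A) (f : J → MvPolynomial V A')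
      (K : Type*) (_ : Field K) (_ : CharZero K) (θ : A' →+* LaurentSeries K) (N : ℕ), 0 < N →
      (∀ i, Cell (fun j => (map θ (f j)).support)
        (fun j v => (coeff v (map θ (f j))).order) N (w i)) →
      DenselyInvertible A w (fun j => map (Subalgebra.inclusion hle).toRingHom (f j)) N) ∧
    -- 2. Free coefficients
    (∀ (k₀ : IntermediateField ℚ k) (f : J → MvPolynomial V A) (U : J → Finset (V →₀ ℕ)),
      AlgebraicIndependent k₀
        (fun s : Σ j, {v // v ∈ U j} => ((coeff s.2.1 (f s.1) : A) : k)) →
      (∀ j v, v ∉ U j → ((coeff v (f j) : A) : k) ∈ k₀) →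
      ∀ h : J → (V →₀ ℕ) → ℤ, (∀ j v, v ∉ U j → h j v = 0) → ∀ N : ℕ, 0 < N →
      (∀ i, Cell (fun j => (f j).support) h N (w i)) → DenselyInvertible A w f N) ∧
    -- 3. Free coefficients at all the exponents of the matrix
    (∀ (k₀ : IntermediateField ℚ k) (f : MvPolynomial V A),
      AlgebraicIndependent k₀ (fun i => ((coeff (w i) f : A) : k)) →
      (∀ v, (∀ i, w i ≠ v) → ((coeff v f : A) : k) ∈ k₀) →
      DenselyInvertible A w (fun _ : Unit => f) 1) ∧
    -- 4. One free coefficient
    (∀ (k₀ : IntermediateField ℚ k) (m : ℕ) (d W : V → ℕ) (u : V →₀ ℕ), 0 < m →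
      2 ≤ Fintype.card V → (∀ x, W x * d x = m) → ∑ x, W x * u x = m →
      ∀ (b : V → A) (t : A) (G : MvPolynomial V A), (∀ x, b x ≠ 0) →
      (∀ x, (b x : k) ∈ k₀) → Transcendental k₀ (t : k) →
      (∀ v, ((coeff v G : A) : k) ∈ k₀) → (∀ v ∈ G.support, ∀ x, u x ≠ 0 → v x ≠ 0) →
      DenselyInvertible A (expo : Exps W m → V →₀ ℕ)
        (fun _ : Unit => ∑ x, monomial (Finsupp.single x (d x)) (b x) + monomial u t + G)
        ((univ.lcm fun x => max 1 (u x)) * m)) := by
  refine ⟨?_, ?_, ?_, ?_⟩
  · intro A' hA' hle f K _ _ θ N hN hC c₀ hc₀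
    obtain ⟨n₀, hn₀⟩ := Pool.Agent.Q267.TR.glob A' A hA' hA hle f θ N hN w hw hC c₀ hc₀
    refine ⟨n₀, fun p hp hpp hpN => ?_⟩
    obtain ⟨M, hM, hpM, hcM, hdM⟩ := hn₀ p hp hpp hpN
    refine ⟨M, hM, hpM, hcM, ?_⟩
    simp only [MvPolynomial.map_map]
    exact hdM
  · intro k₀ f U hU hk h hh N hN hC c₀ hc₀
    exact Pool.Agent.Q267.TR.free k₀ A hA f U hU hk h hh N hN w hw hC c₀ hc₀
  · intro k₀ f hU hk c₀ hc₀
    obtain ⟨n₀, hn₀⟩ := Pool.Agent.Q267.TR.allFree k₀ A hA f w hw hU hk c₀ hc₀
    exact ⟨n₀, fun p hp hpp _ => hn₀ p hp hpp⟩
  · intro k₀ m d W u hm hV hW hu b t G hb hbk ht hGk hG c₀ hc₀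
    obtain ⟨n₀, hn₀⟩ := Pool.Agent.Q267.FC.main k₀ (t : k) ht hV m hm d W hW u hu A hA b hb hbk
      G hGk hG t rfl c₀ hc₀
    refine ⟨n₀, fun p hp hpp hpN => ?_⟩
    obtain ⟨M, hM, hpM, hcM, hdM⟩ := hn₀ p hp hpp hpN
    refine ⟨M, hM, hpM, hcM, ?_⟩
    rw [Pool.Agent.Q267.FC.hasseWitt_eq] at hdM
    have h1 : (hasseWitt p (expo : Exps W m → V →₀ ℕ) fun _ : Unit =>
        map (Ideal.Quotient.mk M)
          (∑ x, monomial (Finsupp.single x (d x)) (b x) + monomial u t + G)) =
        Pool.Agent.Q267.OD.hw p (Pool.Agent.Q267.FC.wexp W m) (map (Ideal.Quotient.mk M)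
          (Pool.Agent.Q267.FC.poly d b u t G)) := by
      ext i i'
      unfold hasseWitt Pool.Agent.Q267.OD.hw
      rw [Matrix.of_apply, Matrix.of_apply, Fintype.prod_unique]
      rfl
    rw [h1]
    exact hdM

end Pool.Agent.Results.MP_adc574_ag.DegenerateFibre
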