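import Pool.Agent.Q267.SE.Join

/-!
# Dense ordinary reduction of hypersurfaces which are sums of binary forms and monomials

Let `k` be a field of characteristic `0` and let

  `f = ∑_c f_c(x_{c,0}, x_{c,1}) + ∑_d b_d x_d ^ (e_d)`

be a sum of at least two terms in different variables, where the `f_c` are binary forms of degrees
`n_c` without multiple roots and `b_d ≠ 0`. Let `m` be a common multiple of the `n_c` and `e_d`. Then
`f = 0` is a quasismooth hypersurface of degree `m` in the projective space with the weights
`m / n_c, m / n_c, m / e_d`. Its Hasse-Witt matrix in characteristic `p` (with respect to the basis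
`x ^ (-u)`, `u_v ≥ 1`, of weighted degree `-m`) is the matrix of Frobenius on `H^d(Y, O_Y)`, where `d` is
the dimension of `Y`.

**Theorem.** Suppose that the roots of all the `f_c` are elements of a field `k₀ ⊂ k`, for example
algebraic numbers, or belong to a family `t` of elements of `k` which are algebraically independent over
`k₀` (the free roots; one root of `f_c` may be `∞`), and that every `f_c` of degree at least `4` has a
free root. Let `A ⊂ k` be a finitely generated ring over which `f` is defined and `c₀ ≠ 0` in `A`. Then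
for all large prime numbers `p = 1 mod m` there is a closed point of `Spec A` of characteristic `p` with
`c₀ ≠ 0` at which the Hasse-Witt matrix of `f = 0` is invertible.

Examples.
* Surfaces `f_1(x_0, x_1) + f_2(x_2, x_3) = 0` or `f_1(x_0, x_1) + a x_2 ^ m + b x_3 ^ m = 0` in `P³` of
  any degree `m`, one root of each binary form being free. From the exact sequence of `O`, `F_* O` and
  `B Ω¹` and the duality of `B Ω¹` and `B Ω²` a smooth projective surface `Y` is ordinary in the sense of
  Bloch and Kato if and only if Frobenius is bijective on `H^1(Y, O_Y)` (zero here) and `H^2(Y, O_Y)`. So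
  the closed points of `Spec A` at which such a surface has ordinary reduction in the sense of Bloch and
  Kato are dense. These are surfaces of general type for `m ≥ 5`.
* The elliptic surfaces `y² = x³ + f(s, t)`, `f` of degree `6 ν` with a free root (weights
  `1, 1, 2 ν, 3 ν`), of geometric genus `ν - 1`, and the surfaces `y ^ a + z ^ b = f(s, t)`.
* The quintic threefolds `f_1(x_0, x_1) + f_2(x_2, x_3) + x_4 ^ 5 = 0`, and hypersurfaces of any
  dimension: Frobenius is bijective on the cohomology of `O` at a dense set of closed points.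

Proof. At the primes `p = 1 mod m` the Hasse-Witt matrix is a direct sum of matrices indexed by the
degrees `i_c < n_c`, `i_d < e_d` of the exponents in the groups of variables; each of them is the tensor
product of the matrices of the eigenspaces `i_c` of the curves `y ^ (n_c) = f_c(x, 1)`, times a multinomial
coefficient which is prime to `p` (`Join.lean`). The matrices of the curves are invertible for a general
position of the free roots by the theorem on abelian covers of the projective line (`Main.lean`, see
`AbelianCovers.lean`).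
-/

set_option autoImplicit false

open Polynomial

namespace Pool.Agent.Results.MP_adc574_ag.Hypersurfaces

/-- The exponents `u` with `u v ≥ 1` and `∑ W v * u v = m`; the monomials `x ^ (-u)` are a basis of
the cohomology of `O(-m)` in the highest degree on the projective space with the weights `W`. -/
abbrev Exps {V : Type*} [Fintype V] (W : V → ℕ) (m : ℕ) :=
  {u : V → Fin (m + 1) // (∀ v, 0 < (u v : ℕ)) ∧ ∑ v, W v * (u v : ℕ) = m}

/-- The Hasse-Witt matrix in characteristic `p` of the hypersurface `f = 0` of weighted degree `m`: the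
entry with indices `u`, `w` is the coefficient of `x ^ (p u - w)` in `f ^ (p - 1)`, written as the
coefficient of `x ^ (p u)` in `x ^ w f ^ (p - 1)`. -/
noncomputable def hasseWitt {R V : Type*} [CommRing R] [Fintype V] (W : V → ℕ) (p m : ℕ)
    (f : MvPolynomial V R) : Matrix (Exps W m) (Exps W m) R :=
  Matrix.of fun u w => MvPolynomial.coeff (Finsupp.equivFunOnFinite.symm fun v => p * (u.1 v : ℕ))
    (MvPolynomial.monomial (Finsupp.equivFunOnFinite.symm fun v => (w.1 v : ℕ)) 1 * f ^ (p - 1))

section

variable {κ μ : Type*} [Fintype κ] [Fintype μ]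

/-- `f = ∑_c F_c(x_{c,0}, x_{c,1}) + ∑_d b_d x_d ^ (e_d)`, where `F_c` is a polynomial in one variable
which is homogenized to a binary form of degree `n c`. -/
noncomputable def form {R : Type*} [CommRing R] (n : κ → ℕ) (F : κ → R[X]) (e : μ → ℕ)
    (b : μ → R) : MvPolynomial ((κ × Fin 2) ⊕ μ) R :=
  ∑ c, MvPolynomial.rename (fun s : Fin 2 => Sum.inl (c, s)) ((F c).homogenize (n c)) +
    ∑ d, MvPolynomial.C (b d) * MvPolynomial.X (Sum.inr d) ^ e d

/-- The weights of the variables `x_{c,0}, x_{c,1}, x_d` are `m / n c, m / n c, m / e d`. -/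
def weights (m : ℕ) (n : κ → ℕ) (e : μ → ℕ) : (κ × Fin 2) ⊕ μ → ℕ :=
  Sum.elim (fun v => m / n v.1) (fun d => m / e d)

end

theorem result {k σ κ μ : Type*} [Finite σ] [Fintype κ] [DecidableEq κ] [Fintype μ]
    [DecidableEq μ] [Field k] [CharZero k]
    -- the field `k₀` and the free roots
    (k₀ : IntermediateField ℚ k) (t : σ → k) (ht : AlgebraicIndependent k₀ t)
    -- the weighted degree, the degrees of the binary forms and the exponents of the monomials
    (m : ℕ) (hm : 0 < m) (n : κ → ℕ) (hn : ∀ c, n c ∣ m) (e : μ → ℕ) (he : ∀ d, e d ∣ m)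
    (h2 : 2 ≤ Fintype.card κ + Fintype.card μ)
    -- the roots of the binary forms; one root may be at infinity
    {J : κ → Type*} [∀ c, Fintype (J c)] (z : ∀ c, J c → k) (hz : ∀ c, Function.Injective (z c))
    (hJ : ∀ c, Fintype.card (J c) = n c ∨ Fintype.card (J c) + 1 = n c)
    (hz₀ : ∀ c j, z c j ∈ k₀ ∨ z c j ∈ Set.range t)
    -- a form of degree at least four has a free root
    (hfree : ∀ c, 4 ≤ n c → ∃ j, z c j ∈ Set.range t)
    -- a finitely generated ring over which the hypersurface is defined, a nonempty open set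
    (A : Subalgebra ℤ k) (hA : A.FG) (F : κ → A[X]) (a : κ → A) (ha : ∀ c, a c ≠ 0)
    (hF : ∀ c, (F c).map (algebraMap A k) = C (a c : k) * ∏ j, (X - C (z c j)))
    (b : μ → A) (hb : ∀ d, b d ≠ 0) (c₀ : A) (hc₀ : c₀ ≠ 0) :
    ∃ N : ℕ, ∀ p : ℕ, N ≤ p → p.Prime → p ≡ 1 [MOD m] →
      ∃ M : Ideal A, M.IsMaximal ∧ (p : A) ∈ M ∧ c₀ ∉ M ∧
        (hasseWitt (weights m n e) p m
          (MvPolynomial.map (Ideal.Quotient.mk M) (form n F e b))).det ≠ 0 := by
  classical
  -- the symbols of the roots
  have hex : ∀ c j, ∃ y : k₀ ⊕ σ, Sum.elim (algebraMap k₀ k) t y = z c j ∧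
      (z c j ∈ Set.range t → ∃ s, y = Sum.inr s) := by
    intro c j
    by_cases h : z c j ∈ Set.range t
    · obtain ⟨s, hs⟩ := h
      exact ⟨Sum.inr s, hs, fun _ => ⟨s, rfl⟩⟩
    · exact ⟨Sum.inl ⟨z c j, (hz₀ c j).resolve_right h⟩, rfl, fun h' => absurd h' h⟩
  choose y hy1 hy2 using hex
  -- arithmetic of the weights
  have hwn : ∀ c, m / n c * n c = m := fun c => Nat.div_mul_cancel (hn c)
  have hwe : ∀ d, m / e d * e d = m := fun d => Nat.div_mul_cancel (he d)
  have hwpos : ∀ c, 0 < m / n c := fun c => Nat.pos_of_ne_zero fun h => by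
    have := hwn c
    rw [h, zero_mul] at this
    omega
  let β := Σ c : κ, {i : Fin (n c) // 2 ≤ i.val}
  have hlt : ∀ (c : κ) (i : Fin (n c)), m / n c * i.val < m := by
    intro c i
    calc m / n c * i.val < m / n c * n c := Nat.mul_lt_mul_of_pos_left i.2 (hwpos c)
      _ = m := hwn c
  have hrk : ∀ (c : κ) (i : Fin (n c)), 2 ≤ i.val →
      Pool.Agent.Q267.SE.rk m (∑ _j : J c, m / n c * i.val) = i.val - 1 := by
    intro c i hi
    rw [Finset.sum_const, Finset.card_univ, smul_eq_mul]
    unfold Pool.Agent.Q267.SE.rk
    have h3 := hlt c i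
    have h4 := Nat.mul_pos (hwpos c) (show 0 < i.val by omega)
    obtain ⟨i', hi'⟩ : ∃ i', i.val = i' + 1 := ⟨i.val - 1, by omega⟩
    rcases hJ c with h | h
    · rw [h]
      have h5 : n c * (m / n c * i.val) = m * i' + m := by
        calc n c * (m / n c * i.val) = (m / n c * n c) * i.val := by ring
          _ = m * i' + m := by rw [hwn, hi']; ring
      rw [h5, hi', Nat.add_sub_cancel]
      have h6 : m * i' + m - 1 = (m - 1) + m * i' := by omega
      rw [h6, Nat.add_mul_div_left _ _ hm, Nat.div_eq_of_lt (by omega), zero_add]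
    · have h5 : Fintype.card (J c) * (m / n c * i.val) + m / n c * i.val = m * i' + m := by
        calc Fintype.card (J c) * (m / n c * i.val) + m / n c * i.val
            = (m / n c * (Fintype.card (J c) + 1)) * i.val := by ring
          _ = m * i' + m := by rw [h, hwn, hi']; ring
      have h6 : Fintype.card (J c) * (m / n c * i.val) - 1 =
          (m - m / n c * i.val - 1) + m * i' := by omega
      rw [h6, Nat.add_mul_div_left _ _ hm, Nat.div_eq_of_lt (by omega), zero_add, hi',
        Nat.add_sub_cancel]
  have hprod : ∀ (b : β) (q : ℕ),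
      ((F b.1) ^ (m / n b.1 * b.2.1.val * q)).map (algebraMap A k) =
      C (((a b.1 ^ (m / n b.1 * b.2.1.val) : A) : k) ^ q) *
        ∏ j, (X - C (z b.1 j)) ^ (m / n b.1 * b.2.1.val * q) := by
    intro b q
    rw [Polynomial.map_pow, hF, mul_pow, Finset.prod_pow]
    congr 1
    rw [← C_pow, pow_mul]
    norm_cast
  obtain ⟨N, hN⟩ := Pool.Agent.Q267.SE.main (β := β) m hm k₀ t ht (J := fun b => J b.1)
    (fun b => y b.1) (fun b i j hij => hz b.1 (by rw [← hy1, ← hy1, hij]))
    (fun b _ => m / n b.1 * b.2.1.val) (fun b _ => hlt b.1 b.2.1) (by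
      rintro ⟨c, i, hi⟩
      by_cases h4 : 4 ≤ n c
      · left
        obtain ⟨j, hj⟩ := hfree c h4
        obtain ⟨s, hs⟩ := hy2 c j hj
        exact ⟨j, s, (Nat.mul_pos (hwpos c) (by omega : 0 < i.val)).ne', hs⟩
      · right
        have h3 : n c = 3 := by have := i.2; omega
        have h5 : i.val = 2 := by have := i.2; omega
        have h6 : (m / n c * i.val) ≠ 0 := (Nat.mul_pos (hwpos c) (by omega : 0 < i.val)).ne'
        show Pool.Agent.Q267.SE.rk m (∑ _j : J c, if m / n c * i.val = 0 then 0
          else m - m / n c * i.val) = 0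
        rw [if_neg h6, Finset.sum_const, Finset.card_univ, smul_eq_mul]
        unfold Pool.Agent.Q267.SE.rk
        have h7 : m - m / n c * i.val = m / n c := by
          have h9 : m / n c * 3 = m := by
            have h10 := hwn c
            rwa [h3] at h10 ⊢
          rw [h5]
          generalize m / n c = w at h9
          omega
        have h8 : Fintype.card (J c) * (m / n c) ≤ m := by
          calc Fintype.card (J c) * (m / n c) ≤ n c * (m / n c) :=
                Nat.mul_le_mul_right _ (by rcases hJ c with h | h <;> omega)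
            _ = m := by rw [mul_comm]; exact hwn c
        rw [h7]
        exact Nat.div_eq_of_lt (by omega))
    A hA (fun q b => (F b.1) ^ (m / n b.1 * b.2.1.val * q))
    (fun b => a b.1 ^ (m / n b.1 * b.2.1.val)) (fun b => pow_ne_zero _ (ha b.1))
    (by
      intro q b
      rw [hprod]
      unfold Pool.Agent.Q267.SE.fp
      simp only [hy1]) (c₀ * ∏ d, b d)
    (mul_ne_zero hc₀ (Finset.prod_ne_zero_iff.2 fun d _ => hb d))
  refine ⟨max N m, fun p hp hpp hpm => ?_⟩
  obtain ⟨q, hq⟩ := (Nat.modEq_iff_dvd' hpp.one_le).1 hpm.symm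
  have hpq : p = m * q + 1 := by
    have := hpp.one_le
    omega
  obtain ⟨M, hM, hpM, hcM, hdet⟩ := hN p q ((le_max_left _ _).trans hp) hpp hpq
  refine ⟨M, hM, hpM, fun h => hcM (M.mul_mem_right _ h), ?_⟩
  have hbM : ∀ d, Ideal.Quotient.mk M (b d) ≠ 0 := by
    intro d h
    apply hcM
    exact M.mul_mem_left _ (M.mem_of_dvd (Finset.dvd_prod_of_mem b (Finset.mem_univ d))
      (Ideal.Quotient.eq_zero_iff_mem.1 h))
  let _ : Field (A ⧸ M) := Ideal.Quotient.field M
  have hpf : Fact p.Prime := ⟨hpp⟩
  have hK0 : ((p : ℕ) : A ⧸ M) = 0 := by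
    have := Ideal.Quotient.eq_zero_iff_mem.2 hpM
    rwa [map_natCast] at this
  have hchar : CharP (A ⧸ M) p := by
    obtain ⟨r, hr⟩ := CharP.exists (A ⧸ M)
    have h1 : r ∣ p := (CharP.cast_eq_zero_iff (A ⧸ M) r p).1 hK0
    rcases (Nat.dvd_prime hpp).1 h1 with h2 | h2
    · subst h2
      exact absurd (CharP.char_ne_one (A ⧸ M) 1 rfl) (by simp)
    · rwa [← h2]
  have hFd : ∀ c, ((F c).map (Ideal.Quotient.mk M)).natDegree ≤ n c := by
    intro c
    refine natDegree_map_le.trans ?_
    have h1 : ((F c).map (algebraMap A k)).natDegree = (F c).natDegree :=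
      natDegree_map_eq_of_injective Subtype.val_injective _
    rw [← h1, hF]
    refine (natDegree_C_mul_le _ _).trans ?_
    rw [natDegree_prod_of_monic _ _ fun j _ => monic_X_sub_C _]
    simp only [natDegree_X_sub_C, Finset.sum_const, Finset.card_univ, smul_eq_mul, mul_one]
    rcases hJ c with h | h <;> omega
  have key := Pool.Agent.Q267.SE.det_hwM_ne_zero (K := A ⧸ M) (κ := κ) (μ := μ)
    (wt := Sum.elim (fun c => m / n c) (fun d => m / e d)) (dd := Sum.elim n e) hm
    (by
      rintro (c | d)
      · exact hwn c
      · exact hwe d) h2 p q hpq ((le_max_right _ _).trans hp)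
    (fun c => (F c).map (Ideal.Quotient.mk M)) (fun d => Ideal.Quotient.mk M (b d)) hFd
    (by
      intro c i
      change Fin (n c) at i
      show (Pool.Agent.Q267.SE.hw p (i.val - 1)
        (((F c).map (Ideal.Quotient.mk M)) ^ (q * (m / n c) * i.val))).det ≠ 0
      by_cases hi : 2 ≤ i.val
      · have h1 := hdet ⟨c, i, hi⟩
        simp only at h1
        rw [hrk c i hi, Polynomial.map_pow] at h1
        have h3 : m / n c * i.val * q = q * (m / n c) * i.val := by ring
        rw [h3] at h1
        exact h1
      · have h0 : i.val - 1 = 0 := by omega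
        have h1 : IsEmpty (Fin (i.val - 1)) := by rw [h0]; infer_instance
        rw [Matrix.det_isEmpty]
        exact one_ne_zero) hbM
  have hW : weights m n e = Pool.Agent.Q267.SE.WW
      (Sum.elim (fun c => m / n c) (fun d => m / e d)) := by
    funext v
    rcases v with ⟨c, s⟩ | d <;> rfl
  have hform : MvPolynomial.map (Ideal.Quotient.mk M) (form n F e b) =
      ∑ g, Pool.Agent.Q267.SE.grp (Sum.elim n e) (fun c => (F c).map (Ideal.Quotient.mk M))
        (fun d => Ideal.Quotient.mk M (b d)) g := by
    unfold form
    rw [Fintype.sum_sum_type, map_add, map_sum, map_sum]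
    congr 1
    · refine Finset.sum_congr rfl fun c _ => ?_
      rw [MvPolynomial.map_rename, ← homogenize_map]
      rfl
    · refine Finset.sum_congr rfl fun d _ => ?_
      rw [map_mul, map_pow, MvPolynomial.map_C, MvPolynomial.map_X]
      rfl
  rw [hform, hW]
  exact key

end Pool.Agent.Results.MP_adc574_ag.Hypersurfaces
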