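import Pool.Agent.Q65.SS.Fam

/-!
# Dense ordinary reduction: one fibre over a number field suffices

Let `k` be a field of characteristic zero, `X` a smooth projective variety over `k` and `Y → Spec A` a
smooth projective model, `A ⊂ k` of finite type over `ℤ`. Suppose that for ONE homomorphism
`φ : A → K`, `K` a number field, the fibre of `Y` over `φ` is over the algebraic closure a product of
varieties of the following kinds:
* elliptic curves, abelian surfaces, K3 surfaces, abelian varieties which have complex
  multiplication or simple signature,
* smooth hypersurfaces `f_1(x^(1)) + f_2(x^(2)) + ⋯ + f_r(x^(r)) = 0` of arbitrary dimension, where the
  `f_j` are forms in disjoint sets of variables, all binary of degree `d ≤ 6`, or all cubic in at most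
  four variables (each of these forms may be replaced by `f_j - u ^ d`),
or more generally a variety whose motive is obtained from these by tensor products, sums, summands
and Tate twists. We prove that the closed points `s` of `Spec A` for which `Y_s` is ordinary in the
sense of Bloch and Kato are dense in `Spec A`.

The Lean proof contains: the decomposition of the motives; density-one sets of places over number
fields (prime ideal theorem of the library), so that the fibre over `φ` has good ordinary reduction at
infinitely many places; for `c ≠ 0` in `A` and all large primes `p` the element `c` is not a zero divisor
in `A / p A` (torsion in the Noetherian ring `A / c A`), and `A` is a Jacobson ring, so that the open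
ordinary locus in characteristic `p` contains closed points with `c ≠ 0`.
-/

set_option autoImplicit false

open CategoryTheory MonoidalCategory

universe v u w

namespace Pool.Agent.Results.MP_adc574_ag.OneFibreSuffices

open Pool.Agent.Q28.HJ Pool.Agent.Q65.SS

/-- **One fibre over a number field suffices.** Let `T` be the motives over the algebraic closure of
the number field `K` with the sets of places where they are ordinary (`hT`: known facts). Let
`Y → Spec A` be a smooth projective morphism, `A` a domain of finite type over `ℤ`, with a homomorphism
`φ : A → K` (`hY`: known facts). Suppose that the motive of the fibre over `φ` is obtained by tensor
products, direct sums, direct summands and Tate twists from the motives of elliptic curves, abelian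
surfaces, K3 surfaces, abelian varieties with complex multiplication or simple signature, and from
the primitive motives of the smooth hypersurfaces which are sums, in disjoint sets of variables, of
binary forms of degree at most six or of cubic forms in at most four variables (`BallSum`). Then the
closed points of `Spec A` with ordinary fibre are dense in `Spec A`. -/
theorem result {K : Type} [Field K] [NumberField K] {𝓜 : Type u} [Category.{v} 𝓜] [Preadditive 𝓜]
    [MonoidalCategory 𝓜] {T : OrdData.{v, u, w} K 𝓜} (hT : T.Facts) {A : Type} [CommRing A]
    [IsDomain A] [Algebra.FiniteType ℤ A] {Y : Family T A} (hY : Y.Facts)
    (hX : GenBy T.L (fun N => T.Base N ∨ ∃ W, BallSum T.toJoinData W ∧ N = T.prim W)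
      (T.mot Y.fibre)) : Dense (MaximalSpectrum.toPrimeSpectrum '' Y.ord) :=
  Family.final hT hY hX

end Pool.Agent.Results.MP_adc574_ag.OneFibreSuffices
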